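import Pool.Agent.N124.CU.Stm
import Pool.Agent.S07615

set_option autoImplicit false

/-! # Project CU: finitely many complex realisations -/

namespace Pool.Agent.N360.CUCfin

open Pool.Agent.N124.CU

/-- the edge of index `e` -/
def eS (e : Fin 13) : Sym2 (Fin 8) := s((E13 e).1, (E13 e).2)

theorem eS_inj : Function.Injective eS := by
  have : ∀ a b : Fin 13, eS a = eS b → a = b := by decide
  exact fun a b h => this a b h

theorem mem_edge (x : Sym2 (Fin 8)) : x ∈ G0.edgeSet ↔ x ∈ Set.range eS := by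
  induction x using Sym2.ind with
  | _ i j =>
    rw [SimpleGraph.mem_edgeSet, adj_iff]
    constructor
    · rintro ⟨e, h | h⟩
      · exact ⟨e, by rw [eS, h]⟩
      · exact ⟨e, by rw [eS, h]; exact Sym2.eq_swap⟩
    · rintro ⟨e, he⟩
      refine ⟨e, ?_⟩
      have he' : s((E13 e).1, (E13 e).2) = s(i, j) := he
      rw [Sym2.eq_iff] at he'
      rcases he' with ⟨h1, h2⟩ | ⟨h1, h2⟩
      · exact Or.inl (Prod.ext h1 h2)
      · exact Or.inr (Prod.ext h1 h2)

theorem edge_eq : G0.edgeSet = Set.range eS := by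
  ext x; exact mem_edge x

theorem card_edge : G0.edgeSet.ncard = 2 * 8 - 3 := by
  rw [edge_eq, ← Set.image_univ, Set.ncard_image_of_injective _ eS_inj, Set.ncard_univ]
  simp

/-- number of the edges inside a set given by its indicator bits -/
def cnt (b0 b1 b2 b3 b4 b5 b6 b7 : Bool) : ℕ :=
  (b0 && b4).toNat + (b0 && b5).toNat + (b0 && b6).toNat + (b0 && b7).toNat + (b1 && b4).toNat +
  (b2 && b4).toNat + (b3 && b4).toNat + (b2 && b5).toNat + (b3 && b5).toNat + (b1 && b6).toNat +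
  (b3 && b6).toNat + (b1 && b7).toNat + (b2 && b7).toNat

theorem cnt_le : ∀ b0 b1 b2 b3 b4 b5 b6 b7 : Bool,
    2 ≤ b0.toNat + b1.toNat + b2.toNat + b3.toNat + b4.toNat + b5.toNat + b6.toNat + b7.toNat →
    cnt b0 b1 b2 b3 b4 b5 b6 b7 + 3 ≤
      2 * (b0.toNat + b1.toNat + b2.toNat + b3.toNat + b4.toNat + b5.toNat + b6.toNat +
        b7.toNat) := by
  decide

theorem card_bits (s : Finset (Fin 8)) : s.card =
    (decide (0 ∈ s)).toNat + (decide (1 ∈ s)).toNat + (decide (2 ∈ s)).toNat +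
    (decide (3 ∈ s)).toNat + (decide (4 ∈ s)).toNat + (decide (5 ∈ s)).toNat +
    (decide (6 ∈ s)).toNat + (decide (7 ∈ s)).toNat := by
  have h : s.card = ∑ i : Fin 8, (decide (i ∈ s)).toNat := by
    rw [← Finset.filter_univ_mem s, Finset.card_filter]
    refine Finset.sum_congr rfl fun i _ => ?_
    by_cases hi : i ∈ s <;> simp [hi]
  rw [h, Fin.sum_univ_eight]

theorem sum_cnt (f : Fin 8 → Bool) :
    ∑ e : Fin 13, (f (E13 e).1 && f (E13 e).2).toNat =
      cnt (f 0) (f 1) (f 2) (f 3) (f 4) (f 5) (f 6) (f 7) := by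
  simp only [Fin.sum_univ_succ, Finset.univ_eq_empty, Finset.sum_empty, cnt]
  simp only [E13]
  simp
  ring

theorem sub_card (s : Finset (Fin 8)) (hs : 2 ≤ s.card) :
    {e : Sym2 (Fin 8) | e ∈ G0.edgeSet ∧ ∀ v ∈ e, v ∈ s}.ncard ≤ 2 * s.card - 3 := by
  classical
  have h1 : {e : Sym2 (Fin 8) | e ∈ G0.edgeSet ∧ ∀ v ∈ e, v ∈ s} =
      eS '' {e : Fin 13 | (E13 e).1 ∈ s ∧ (E13 e).2 ∈ s} := by
    ext x
    constructor
    · rintro ⟨h, hv⟩
      rw [mem_edge] at h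
      obtain ⟨e, rfl⟩ := h
      exact ⟨e, ⟨hv _ (Sym2.mem_mk_left _ _), hv _ (Sym2.mem_mk_right _ _)⟩, rfl⟩
    · rintro ⟨e, ⟨h1, h2⟩, rfl⟩
      refine ⟨(mem_edge _).2 ⟨e, rfl⟩, fun v hv => ?_⟩
      rcases Sym2.mem_iff.1 hv with rfl | rfl
      · exact h1
      · exact h2
  rw [h1, Set.ncard_image_of_injective _ eS_inj]
  have h2 : {e : Fin 13 | (E13 e).1 ∈ s ∧ (E13 e).2 ∈ s}.ncard =
      cnt (decide (0 ∈ s)) (decide (1 ∈ s)) (decide (2 ∈ s)) (decide (3 ∈ s)) (decide (4 ∈ s))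
        (decide (5 ∈ s)) (decide (6 ∈ s)) (decide (7 ∈ s)) := by
    have : {e : Fin 13 | (E13 e).1 ∈ s ∧ (E13 e).2 ∈ s} =
        ((Finset.univ.filter fun e : Fin 13 => (E13 e).1 ∈ s ∧ (E13 e).2 ∈ s : Finset (Fin 13)) :
          Set (Fin 13)) := by
      ext e; simp
    rw [this, Set.ncard_coe_finset, Finset.card_filter]
    have h3 : ∀ e : Fin 13, (if (E13 e).1 ∈ s ∧ (E13 e).2 ∈ s then 1 else 0) =
        (decide ((E13 e).1 ∈ s) && decide ((E13 e).2 ∈ s)).toNat := by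
      intro e
      by_cases ha : (E13 e).1 ∈ s <;> by_cases hb : (E13 e).2 ∈ s <;> simp [ha, hb]
    rw [Finset.sum_congr rfl fun e _ => h3 e]
    exact sum_cnt fun i => decide (i ∈ s)
  rw [h2]
  have h3 := cnt_le (decide (0 ∈ s)) (decide (1 ∈ s)) (decide (2 ∈ s)) (decide (3 ∈ s))
    (decide (4 ∈ s)) (decide (5 ∈ s)) (decide (6 ∈ s)) (decide (7 ∈ s))
  rw [← card_bits s] at h3
  have := h3 hs
  omega

theorem t_cfin : S_cfin := by
  intro p hp
  have h := Pool.Agent.S07615.result 8 G0 card_edge sub_card p hp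
  have h1 := Set.finite_of_ncard_ne_zero (s := {D : Fin 8 → Fin 8 → ℂ | ∃ q : Fin 8 → Fin 2 → ℂ,
          (∀ u v, G0.Adj u v →
            ∑ i, (q u i - q v i) ^ 2 = ∑ i, ((p u i - p v i : ℝ) : ℂ) ^ 2) ∧
          D = fun u v => ∑ i, (q u i - q v i) ^ 2}) (by
            intro h0
            rw [h0] at h
            norm_num at h)
  push_cast at h1
  exact h1

end Pool.Agent.N360.CUCfin
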