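import Pool.Agent.N124.CU.Stm
import Pool.Agent.H135R2.Rigid.Perturb
import Pool.Agent.H135R2.Rigid.Count
import Pool.Agent.H263R2.Stress.Gen

set_option autoImplicit false

/-! # Project CU: rank facts for the cube with a long diagonal -/

namespace Pool.Agent.N360.CURig

open Pool.Agent.N124.CU Pool.Agent.H135R2.Rigid Set Filter Topology

/-- the edge of index `e` -/
def eS (e : Fin 13) : Sym2 (Fin 8) := s((E13 e).1, (E13 e).2)

theorem eS_inj : Function.Injective eS := by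
  have : ∀ a b : Fin 13, eS a = eS b → a = b := by decide
  exact fun a b h => this a b h

/-- an explicit integral placement -/
def pZ : Fin 8 → Fin 2 → ℤ :=
  ![![0, 2], ![1, 1], ![1, 2], ![0, 1], ![1, -1], ![-1, 2], ![0, -1], ![2, 0]]

/-- motions dual to the edges -/
def mZ : Fin 13 → Fin 8 → Fin 2 → ℤ :=
  ![![![0, 0], ![0, 0], ![0, 0], ![1, 0], ![1, 0], ![0, -1], ![0, 0], ![0, 0]],
    ![![0, 0], ![0, 0], ![-1, 0], ![0, 0], ![0, 0], ![-1, -1], ![0, 0], ![1, 1]],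
    ![![0, 0], ![0, 0], ![0, 0], ![-2, -1], ![0, 0], ![0, 1], ![2, -1], ![0, 0]],
    ![![0, 0], ![1, 0], ![0, 0], ![0, 0], ![0, 0], ![0, 0], ![1, 0], ![2, 1]],
    ![![0, 0], ![1, 1], ![0, 0], ![0, 0], ![0, 0], ![0, 0], ![3, 0], ![0, 0]],
    ![![0, 0], ![0, 0], ![0, 1], ![0, 0], ![0, 0], ![0, 0], ![0, 0], ![2, 2]],
    ![![0, 0], ![0, 0], ![0, 0], ![-1, 0], ![0, 0], ![0, 1], ![0, 0], ![0, 0]],
    ![![0, 0], ![0, 0], ![1, 0], ![0, 0], ![0, 0], ![0, 0], ![0, 0], ![-1, -1]],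
    ![![0, 0], ![0, 0], ![0, 0], ![0, 0], ![0, 0], ![0, 1], ![0, 0], ![0, 0]],
    ![![0, 0], ![0, 0], ![0, 0], ![0, 0], ![0, 0], ![0, 0], ![-1, 0], ![0, 0]],
    ![![0, 0], ![0, 0], ![0, 0], ![2, 1], ![0, 0], ![0, -1], ![0, 0], ![0, 0]],
    ![![0, 0], ![-1, 0], ![0, 0], ![0, 0], ![0, 0], ![0, 0], ![-1, 0], ![0, 0]],
    ![![0, 0], ![0, 0], ![0, 0], ![0, 0], ![0, 0], ![0, 0], ![0, 0], ![-1, -1]]]

/-- integral first order change -/
def rrZ (p m : Fin 8 → Fin 2 → ℤ) (a b : Fin 8) : ℤ :=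
  (p a 0 - p b 0) * (m a 0 - m b 0) + (p a 1 - p b 1) * (m a 1 - m b 1)

theorem dual_off : ∀ j k : Fin 13, j ≠ k → rrZ pZ (mZ k) (E13 j).1 (E13 j).2 = 0 := by
  decide

theorem dual_diag : ∀ k : Fin 13, rrZ pZ (mZ k) (E13 k).1 (E13 k).2 ≠ 0 := by
  decide

/-- casting -/
def cast2 (p : Fin 8 → Fin 2 → ℤ) : Conf (Fin 8) := fun a i => (p a i : ℝ)

theorem rr_cast (p m : Fin 8 → Fin 2 → ℤ) (a b : Fin 8) :
    rr (cast2 p) (cast2 m) a b = (rrZ p m a b : ℝ) := by
  unfold rr rrZ cast2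
  push_cast
  ring

/-- the edge set -/
def F : Set (Sym2 (Fin 8)) := range eS

theorem li0 : LinearIndependent ℝ (fun e : Fin 13 => row (cast2 pZ) (eS e)) := by
  rw [Fintype.linearIndependent_iff]
  intro g hg k
  have h1 := congrArg (dotL (cast2 (mZ k))) hg
  rw [map_sum, map_zero] at h1
  have h2 : ∀ j ∈ (Finset.univ : Finset (Fin 13)), j ≠ k →
      dotL (cast2 (mZ k)) (g j • row (cast2 pZ) (eS j)) = 0 := by
    intro j _ hj
    rw [map_smul, dotL_apply, eS, dot_row, rr_cast, dual_off j k hj]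
    simp
  rw [Finset.sum_eq_single k h2 (fun h => absurd (Finset.mem_univ _) h), map_smul, dotL_apply,
    eS, dot_row, rr_cast, smul_eq_mul, mul_eq_zero] at h1
  rcases h1 with h1 | h1
  · exact h1
  · exact absurd (by exact_mod_cast h1) (dual_diag k)

theorem ind0 : Ind (cast2 pZ) F := by
  unfold Ind F
  rw [linearIndepOn_range_iff eS_inj]
  exact li0

theorem ind_gen {p : Conf (Fin 8)} (hp : Gen p) : Ind p F := hp.ind ind0

theorem ncard_F : F.ncard = 13 := by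
  unfold F
  rw [← image_univ, ncard_image_of_injective _ eS_inj, ncard_univ]
  simp

theorem cl_gen {p : Conf (Fin 8)} (hp : Gen p) (e : Sym2 (Fin 8)) : Cl p F e := by
  by_contra hc
  have h1 := ind_insert (ind_gen hp) hc
  have h2 := ind_card_le h1 Finset.univ (fun _ _ _ _ => Finset.mem_univ _) (by simp)
  have h3 : e ∉ F := fun h => hc (cl_self h)
  rw [ncard_insert_of_notMem h3 (Set.toFinite _), ncard_F] at h2
  simp at h2

theorem t_rig : S_rig := by
  intro p hp u hu i j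
  have h := (cl_iff p F i j).1 (cl_gen hp _) u ?_
  · rw [Fin.sum_univ_two]
    exact h
  · rintro c d ⟨e, he⟩
    have hadj : G0.Adj c d := by
      rw [adj_iff]
      refine ⟨e, ?_⟩
      have he' : s((E13 e).1, (E13 e).2) = s(c, d) := he
      rw [Sym2.eq_iff] at he'
      rcases he' with ⟨h1, h2⟩ | ⟨h1, h2⟩
      · exact Or.inl (Prod.ext h1 h2)
      · exact Or.inr (Prod.ext h1 h2)
    have := hu c d hadj
    rwa [Fin.sum_univ_two] at this

/-- the vector of the squared lengths -/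
noncomputable def len (c : Conf (Fin 8)) : Fin 13 → ℝ := fun e => sq c (E13 e).1 (E13 e).2

theorem exists_presc {q : Conf (Fin 8)} (h : Ind q F) (y : Fin 13 → ℝ) :
    ∃ m : Conf (Fin 8), ∀ e : Fin 13, rr q m (E13 e).1 (E13 e).2 = y e := by
  let φ : Fin 13 ≃ F := Equiv.ofInjective eS eS_inj
  obtain ⟨m, hm⟩ := exists_prescribed h (fun f => y (φ.symm f))
  refine ⟨m, fun e => ?_⟩
  have h1 := hm (φ e)
  rw [Equiv.symm_apply_apply] at h1
  rw [← h1, ← dot_row]
  rfl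

theorem map_len {q : Conf (Fin 8)} (h : Ind q F) : map len (𝓝 q) = 𝓝 (len q) := by
  let D : Conf (Fin 8) →L[ℝ] (Fin 13 → ℝ) := ContinuousLinearMap.pi fun e =>
    ((2 * (q (E13 e).1 0 - q (E13 e).2 0)) • (pr (E13 e).1 0 - pr (E13 e).2 0)
      + (2 * (q (E13 e).1 1 - q (E13 e).2 1)) • (pr (E13 e).1 1 - pr (E13 e).2 1))
  have hD : HasStrictFDerivAt len D q := by
    rw [hasStrictFDerivAt_pi']
    intro e
    exact hasStrictFDerivAt_sq q _ _
  refine hD.map_nhds_eq_of_surj ?_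
  rw [LinearMap.range_eq_top]
  intro y
  obtain ⟨m, hm⟩ := exists_presc h (fun e => y e / 2)
  refine ⟨m, ?_⟩
  ext e
  have h1 := hm e
  unfold rr at h1
  simp only [D, ContinuousLinearMap.coe_coe, ContinuousLinearMap.coe_pi',
    add_apply, smul_apply, sub_apply, pr_apply, smul_eq_mul]
  linarith

/-- squared lengths as polynomials -/
noncomputable def lenP (e : Fin 13) : MvPolynomial (Fin 8 × Fin 2) ℚ :=
  ∑ k, (MvPolynomial.X ((E13 e).1, k) - MvPolynomial.X ((E13 e).2, k)) ^ 2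

theorem aeval_lenP (p : Conf (Fin 8)) (e : Fin 13) :
    MvPolynomial.aeval (fun x : Fin 8 × Fin 2 => p x.1 x.2) (lenP e)
      = ∑ k, (p (E13 e).1 k - p (E13 e).2 k) ^ 2 := by
  unfold lenP
  simp

theorem aeval_bind (p : Conf (Fin 8)) (P : MvPolynomial (Fin 13) ℚ) :
    MvPolynomial.aeval (fun x : Fin 8 × Fin 2 => p x.1 x.2) (MvPolynomial.bind₁ lenP P)
      = MvPolynomial.aeval (fun e : Fin 13 => ∑ k, (p (E13 e).1 k - p (E13 e).2 k) ^ 2) P := by
  rw [MvPolynomial.aeval_bind₁]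
  congr 1
  congr 1
  ext1 e
  exact aeval_lenP p e

theorem t_ind : S_ind := by
  intro p hp
  rw [algebraicIndependent_iff]
  intro P hP
  have h0 : MvPolynomial.bind₁ lenP P = 0 := by
    refine (algebraicIndependent_iff.1 hp) _ ?_
    rw [aeval_bind]
    exact hP
  have h1 : ∀ c : Conf (Fin 8), MvPolynomial.aeval (len c) P = 0 := by
    intro c
    have h2 := aeval_bind c P
    rw [h0, map_zero] at h2
    rw [h2]
    congr 1
    congr 1
    ext1 e
    simp [len, Pool.Agent.H135R2.Rigid.sq, Fin.sum_univ_two]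
  have h2 : ∀ᶠ y in 𝓝 (len p), MvPolynomial.aeval (R := ℚ) y P = 0 := by
    rw [← map_len (ind_gen (p := p) hp), eventually_map]
    exact Eventually.of_forall h1
  obtain ⟨y, hy, hyi⟩ := Pool.Agent.H263R2.Stress.exists_algInd_of_eventually h2
  exact (algebraicIndependent_iff.1 hyi) _ hy

end Pool.Agent.N360.CURig
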