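import Mathlib
import Pool.Agent.N988.EA.Main
import Pool.Agent.N360.ED.Core

/-!
# Slow mixing on hierarchical lattices: growth of the effective coupling
-/

open Pool.Agent.N988.EA
open Pool.Agent.N988.ED

namespace Pool.Agent.N360.ED

theorem t_GRW : S_GRW := GRW_of k_WIN k_H

end Pool.Agent.N360.ED
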