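import Pool.Agent.N906.QP.StmL
import Pool.Agent.N340.QP_FINQ
import Pool.Agent.N401.QP_FINJ

/-!
# QP/FINL: the final localized theorems (helper360)

The upper bounds are those of `Pool/Agent/N340/QP_FINQ.lean` and `Pool/Agent/N401/QP_FINJ.lean`; the lower bound for the sum law
follows from the one for the joint law.
-/

set_option autoImplicit false
set_option linter.unusedSectionVars false

namespace Pool.Agent.N360.QP

open NumberField IsDedekindDomain Finset Filter Topology Module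
open Pool.Agent.H691R3 Pool.Agent.W223.AK Pool.Agent.N906.KG Pool.Agent.N170.KG
open Pool.Agent.N906.NT (Gs Gs_pos Gs_mono log_small Gs_tendsto squeeze)
open Pool.Agent.N401.QP (JV_finite final_limitJ upperJ)
open Pool.Agent.N340.QP (QV_finite lim2 upper sqrt_sum)

section points

variable {K : Type} [Field K] [NumberField K] {q : ℕ}

/-- the centre can be moved away from zero -/
lemma move (z : InfinitePlace K → ℂ) {η : ℝ} (hη : 0 < η) (hz : ∀ w, w.IsReal → (z w).im = 0) :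
    ∃ z' : InfinitePlace K → ℂ, (∀ w, w.IsReal → (z' w).im = 0) ∧ (∀ w, z' w ≠ 0) ∧
      ∀ w (y : ℂ), ‖y - z' w‖ < η / 2 → ‖y - z w‖ < η := by
  classical
  refine ⟨fun w => if z w = 0 then ((η / 4 : ℝ) : ℂ) else z w, fun w hw => ?_, fun w => ?_,
    fun w y hy => ?_⟩
  · beta_reduce
    split_ifs with h
    · exact Complex.ofReal_im _
    · exact hz w hw
  · beta_reduce
    split_ifs with h
    · exact Complex.ofReal_ne_zero.2 (by positivity)
    · exact h
  · by_cases h : z w = 0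
    · simp only [h, if_true] at hy ⊢
      have h1 : ‖((η / 4 : ℝ) : ℂ)‖ = η / 4 := by
        rw [Complex.norm_real, Real.norm_eq_abs, abs_of_pos (by positivity)]
      have h2 : ‖y - 0‖ ≤ ‖y - ((η / 4 : ℝ) : ℂ)‖ + ‖((η / 4 : ℝ) : ℂ)‖ := by
        have : y - 0 = (y - ((η / 4 : ℝ) : ℂ)) + ((η / 4 : ℝ) : ℂ) := by ring
        rw [this]
        exact norm_add_le _ _
      linarith
    · simp only [h, if_false] at hy
      linarith

theorem lowerJD (h1 : S_BASQ K) (h4 : S_LOJD K) (hq : 1 ≤ q) {T : Set (Pr K)}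
    (hT : T.Finite) {α : Fin q → Fin 2 → K} {κ : Fin q → ℝ} (c : ℝ) (hα0 : ∀ i, α i ≠ 0)
    (hα : ∀ i j, i ≠ j → α i 0 * α j 1 - α i 1 * α j 0 ≠ 0) (hκ : ∀ l, 0 ≤ κ l)
    (hκ0 : 0 < ∑ l, κ l) (hκ1 : ∑ l, κ l < 1) {z : InfinitePlace K → ℂ} {η : ℝ} (hη : 0 < η)
    (hz : ∀ w, w.IsReal → (z w).im = 0) {ε : ℝ} (hε : 0 < ε) (hε1 : ε < 1) :
    ∃ X₀ : ℝ, 1 < X₀ ∧ ∀ L : ℝ, X₀ ≤ (finrank ℚ K : ℝ) * L →
      Real.exp ((2 - ∑ l, κ l) * (finrank ℚ K * L) + (1 - ε) *
          ∑ l, √(8 * κ l * (finrank ℚ K * L) / Real.log (finrank ℚ K * L))) ≤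
        (({P | P ∈ JV T α κ c (Real.exp L) ∧ Near z η P} :
          Set (Projectivization K (Fin 2 → K))).ncard : ℝ) := by
  classical
  have hd : (0 : ℝ) < finrank ℚ K := fin_pos
  have hA := al_pr hα0 hα
  obtain ⟨⟨S₁, hS₁⟩, hA2⟩ := h1 q (pr α) hq hA
  set S : Finset (Pr K) := S₁ ∪ hT.toFinset with hS
  have hTS : T ⊆ ↑S := by
    intro v hv
    rw [hS, coe_union]
    exact Or.inr (mem_coe.2 (hT.mem_toFinset.2 hv))
  have hGα := hS₁ S subset_union_left
  have hC₀ : 0 ≤ ∑ v ∈ S, Real.log (Nv v) + finrank ℚ K * |c| :=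
    add_nonneg (sum_nonneg fun v _ => (log_Nv_pos v).le) (by positivity)
  obtain ⟨z', hz1, hz2, hz3⟩ := move z hη hz
  obtain ⟨X₀, hX₀, hlo⟩ := h4 q (pr α) S κ ε
    (∑ v ∈ S, Real.log (Nv v) + finrank ℚ K * |c|) z' (η / 2) hq hA hGα hκ hκ0 hκ1 hε hε1 hC₀
    hz1 hz2 (by positivity)
  refine ⟨X₀, hX₀, fun L hL => ?_⟩
  set X : ℝ := finrank ℚ K * L with hX
  obtain ⟨F, hF, hcard⟩ := hlo X hL
  refine hcard.trans ?_
  have hfin : ({P | P ∈ JV T α κ c (Real.exp L) ∧ Near z η P} :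
      Set (Projectivization K (Fin 2 → K))).Finite :=
    (JV_finite T α κ c (Real.exp L)).subset fun P hP => hP.1
  have hsub : ((F.image pt : Finset _) : Set _) ⊆
      {P | P ∈ JV T α κ c (Real.exp L) ∧ Near z η P} := by
    intro P hP
    obtain ⟨p, hp, rfl⟩ := mem_image.1 (mem_coe.1 hP)
    obtain ⟨o1, k1, hnear, P, hPP, htr⟩ := hF p hp
    obtain ⟨n1, e1⟩ := pt_rep p
    have l1 : Height.logHeight (pt p).rep = hr (aff p) := by rw [ht_rep, e1]
    have f1 : Off1 α (pt p) := off_of n1 (by rw [e1]; exact o1)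
    refine ⟨⟨f1, exp_hh.2 (by rw [l1]; exact k1), fun l => ?_⟩, n1, fun w => ?_⟩
    · have h5 := (Pool.Agent.N401.QP.ncl_bounds hTS hα0 n1 f1 (by rw [e1]; exact hPP) l).2
      have h6 : (finrank ℚ K : ℝ) * ncl T (α l) (pt p) ≤
          finrank ℚ K * ((1 - κ l) * hh (pt p) + c) := by
        unfold hh
        rw [l1]
        have e3 : (finrank ℚ K : ℝ) * ((1 - κ l) * (hr (aff p) / finrank ℚ K) + c) =
            (1 - κ l) * hr (aff p) + finrank ℚ K * c := by
          field_simp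
        rw [e3]
        have := mul_le_mul_of_nonneg_left (neg_abs_le c) hd.le
        linarith [htr l]
      exact le_of_mul_le_mul_left h6 hd
    · rw [e1]
      exact hz3 w _ (hnear w)
  have h5 := Set.ncard_le_ncard hsub hfin
  rw [Set.ncard_coe_finset, card_image_of_injective _ pt_inj] at h5
  exact_mod_cast h5

theorem lowerQD (h1 : S_BASQ K) (h4 : S_LOJD K) (hq : 1 ≤ q) {T : Set (Pr K)}
    (hT : T.Finite) {α : Fin q → Fin 2 → K} {κ : ℝ} (c : ℝ) (hα0 : ∀ i, α i ≠ 0)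
    (hα : ∀ i j, i ≠ j → α i 0 * α j 1 - α i 1 * α j 0 ≠ 0) (hκ0 : 0 < κ) (hκ1 : κ < 1)
    {z : InfinitePlace K → ℂ} {η : ℝ} (hη : 0 < η)
    (hz : ∀ w, w.IsReal → (z w).im = 0) {ε : ℝ} (hε : 0 < ε) (hε1 : ε < 1) :
    ∃ X₀ : ℝ, 1 < X₀ ∧ ∀ L : ℝ, X₀ ≤ (finrank ℚ K : ℝ) * L →
      Real.exp ((2 - κ) * (finrank ℚ K * L) +
          (1 - ε) * √(8 * q * κ * (finrank ℚ K * L) / Real.log (finrank ℚ K * L))) ≤
        (({P | P ∈ QV T α κ c (Real.exp L) ∧ Near z η P} :
          Set (Projectivization K (Fin 2 → K))).ncard : ℝ) := by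
  have hq0 : (0 : ℝ) < q := by exact_mod_cast hq
  have hsum : ∑ _l : Fin q, κ / (q : ℝ) = κ := by
    rw [sum_const, card_univ, Fintype.card_fin, nsmul_eq_mul, mul_div_cancel₀ _ hq0.ne']
  obtain ⟨X₀, hX₀, h⟩ := lowerJD h1 h4 hq hT (κ := fun _ => κ / q) (-|c|) hα0 hα
    (fun _ => by positivity) (by rw [hsum]; exact hκ0) (by rw [hsum]; exact hκ1) hη hz hε hε1
  refine ⟨X₀, hX₀, fun L hL => ?_⟩
  have h5 := h L hL
  have e0 : ∀ X : ℝ, ∑ _l : Fin q, √(8 * (κ / q) * X / Real.log X) =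
      √(8 * q * κ * X / Real.log X) := by
    intro X
    rw [show (8 * q * κ * X / Real.log X) = 8 * q * κ * (X / Real.log X) from
      mul_div_assoc _ _ _, ← sqrt_sum hq]
    exact sum_congr rfl fun _ _ => by rw [mul_div_assoc]
  rw [hsum, e0] at h5
  refine h5.trans ?_
  have hfin : ({P | P ∈ QV T α κ c (Real.exp L) ∧ Near z η P} :
      Set (Projectivization K (Fin 2 → K))).Finite :=
    (QV_finite T α κ c (Real.exp L)).subset fun P hP => hP.1
  have hsub : {P | P ∈ JV T α (fun _ => κ / q) (-|c|) (Real.exp L) ∧ Near z η P} ⊆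
      {P | P ∈ QV T α κ c (Real.exp L) ∧ Near z η P} := by
    rintro P ⟨⟨a1, a2, a3⟩, a4⟩
    refine ⟨⟨a1, a2, ?_⟩, a4⟩
    refine (sum_le_sum fun l _ => a3 l).trans ?_
    rw [sum_const, card_univ, Fintype.card_fin, nsmul_eq_mul]
    have e4 : (q : ℝ) * ((1 - κ / q) * hh P + -|c|) = ((q : ℝ) - κ) * hh P - q * |c| := by
      field_simp
      ring
    rw [e4]
    have h9 : (1 : ℝ) * |c| ≤ q * |c| :=
      mul_le_mul_of_nonneg_right (by exact_mod_cast hq) (abs_nonneg c)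
    have := neg_abs_le c
    linarith
  exact_mod_cast Set.ncard_le_ncard hsub hfin

end points

/-- **FINL**, the localized theorems. -/
theorem finl (K : Type) [Field K] [NumberField K] (q : ℕ) (κ₁ : ℝ) (h1 : S_BASQ K)
    (h2 : S_UPQ K q κ₁) (h3 : S_UPJ K q κ₁) (h4 : S_LOJD K) : S_FINL K q κ₁ := by
  intro T α c z η hT hq hα0 hα hz hη
  have hq1 : 1 ≤ q := by omega
  have hd : (0 : ℝ) < finrank ℚ K := fin_pos
  have hq0 : (0 : ℝ) < q := by exact_mod_cast hq1
  refine ⟨fun κ hκ0 hκ1 hκ2 => ?_, fun κ hκ hκ0 hκ1 hκ2 => ?_⟩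
  · have e0 : ∀ X : ℝ, √(8 * q * κ * X / Real.log X) = √(8 * q * κ) * √(X / Real.log X) := by
      intro X
      rw [mul_div_assoc, Real.sqrt_mul (by positivity)]
    have h := lim2 (e := (2 - κ) * finrank ℚ K) (d := finrank ℚ K) (c := √(8 * q * κ)) hd
      (Real.sqrt_nonneg _) (mul_pos (by linarith) hd)
      (fun L => (({P | P ∈ QV T α κ c (Real.exp L) ∧ Near z η P} :
        Set (Projectivization K (Fin 2 → K))).ncard : ℝ))
      (fun ε hε => by
        obtain ⟨X₀, -, h⟩ := upper h1 h2 hq1 hT c hα0 hα hκ0 hκ1 hε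
        refine ⟨X₀, fun L hL => ?_⟩
        have g1 : ({P | P ∈ QV T α κ c (Real.exp L) ∧ Near z η P} :
            Set (Projectivization K (Fin 2 → K))).ncard ≤ (QV T α κ c (Real.exp L)).ncard :=
          Set.ncard_le_ncard (fun P hP => hP.1) (QV_finite T α κ c (Real.exp L))
        have g2 : ((({P | P ∈ QV T α κ c (Real.exp L) ∧ Near z η P} :
            Set (Projectivization K (Fin 2 → K))).ncard : ℕ) : ℝ) ≤
            ((QV T α κ c (Real.exp L)).ncard : ℝ) := by exact_mod_cast g1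
        refine (g2.trans (h L hL)).trans (le_of_eq ?_)
        rw [e0, mul_assoc (2 - κ)])
      (fun ε hε hε1 => by
        obtain ⟨X₀, -, h⟩ := lowerQD h1 h4 hq1 hT c hα0 hα hκ0 hκ2 hη hz hε hε1
        refine ⟨X₀, fun L hL => (le_of_eq ?_).trans (h L hL)⟩
        rw [e0, mul_assoc (2 - κ)])
    have h5 := h.comp Real.tendsto_log_atTop
    rw [← Real.sqrt_mul (by positivity)] at h5
    refine h5.congr' ?_
    filter_upwards [eventually_gt_atTop (0 : ℝ)] with B hB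
    simp only [Function.comp_apply, Gs]
    rw [Real.exp_log hB, Real.sqrt_eq_rpow]
    congr 2
    ring
  · have hc₁ : 0 ≤ ∑ l, √(8 * κ l) := sum_nonneg fun l _ => Real.sqrt_nonneg _
    have hsum : ∀ X : ℝ, ∑ l, √(8 * κ l * X / Real.log X) =
        (∑ l, √(8 * κ l)) * (1 * X / Real.log X) ^ ((1 : ℝ) / 2) := by
      intro X
      rw [sum_mul]
      refine sum_congr rfl fun l _ => ?_
      rw [one_mul, ← Real.sqrt_eq_rpow, ← Real.sqrt_mul (by have := hκ l; positivity),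
        mul_div_assoc]
    have h := final_limitJ (E := 2 - ∑ l, κ l) hc₁ (fin_pos (K := K)) (by linarith)
      (fun L => (({P | P ∈ JV T α κ c (Real.exp L) ∧ Near z η P} :
        Set (Projectivization K (Fin 2 → K))).ncard : ℝ)) ?_ ?_
    · have h5 := h.comp Real.tendsto_log_atTop
      have e1 : (∑ l, √(8 * κ l)) * (1 * (finrank ℚ K : ℝ)) ^ ((1 : ℝ) / 2) =
          ∑ l, √(8 * κ l * finrank ℚ K) := by
        rw [sum_mul]
        refine sum_congr rfl fun l _ => ?_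
        rw [one_mul, ← Real.sqrt_eq_rpow, ← Real.sqrt_mul (by have := hκ l; positivity)]
      rw [e1] at h5
      refine h5.congr' ?_
      filter_upwards [eventually_gt_atTop (0 : ℝ)] with B hB
      simp only [Function.comp_apply, Gs]
      rw [Real.exp_log hB, ← Real.sqrt_eq_rpow]
    · intro ε hε
      obtain ⟨X₀, hX₀, hu⟩ := upperJ h1 h3 hq1 hT c hα0 hα hκ hκ0 hκ1 hε
      refine ⟨X₀, hX₀, fun L hL => ?_⟩
      have h6 := hu L hL
      rw [hsum] at h6
      have g1 : ({P | P ∈ JV T α κ c (Real.exp L) ∧ Near z η P} :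
          Set (Projectivization K (Fin 2 → K))).ncard ≤ (JV T α κ c (Real.exp L)).ncard :=
        Set.ncard_le_ncard (fun P hP => hP.1) (JV_finite T α κ c (Real.exp L))
      have g2 : ((({P | P ∈ JV T α κ c (Real.exp L) ∧ Near z η P} :
          Set (Projectivization K (Fin 2 → K))).ncard : ℕ) : ℝ) ≤
          ((JV T α κ c (Real.exp L)).ncard : ℝ) := by exact_mod_cast g1
      exact g2.trans h6
    · intro ε hε hε1
      obtain ⟨X₀, hX₀, hu⟩ := lowerJD h1 h4 hq1 hT c hα0 hα hκ hκ0 hκ2 hη hz hε hε1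
      refine ⟨X₀, hX₀, fun L hL => ?_⟩
      have h6 := hu L hL
      rw [hsum] at h6
      exact h6

end Pool.Agent.N360.QP
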